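import Pool.Agent.R934.PF.Main

/-!
# Polynomial Freiman-Ruzsa in the integers without dimensions: dense pieces in convex sets

`A ⊂ ℤ` has a *piece* with constant `M` (`Piece M A`) if for some `n`, of any size, there is a
finite set `S ⊂ ℤ^n` which contains at least the proportion `1 / M` of the lattice points of its own
convex hull, and a homomorphism `φ : ℤ^n → ℤ`, injective on `S + S`, such that some translate of
`φ(S)` is contained in `A` and contains at least `|A| / M` elements.

1. If `|A + A| ≤ K |A|` and `A` has a piece with constant `M`, then `A` is covered by `(2 K M)^4200`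
   translates of a centred convex progression of dimension at most `480 log (K M) + 1` and volume
   at most `|A|`.
2. Conversely a covering of `A` by `τ` translates of a centred convex progression of dimension `d`
   and volume at most `|A|` gives a piece with constant `2 · 5^(5 d) τ²`. (Nothing is assumed on the
   injectivity of the progression.)
3. So the following are equivalent: the polynomial Freiman-Ruzsa conjecture Q1; Q1 for sets `A`
   with `|A| ≥ F(K)`, for some function `F`, however fast it grows; every `A` with
   `|A + A| ≤ K |A|` has a piece with constant `C K ^ C` (no dimension and no volume in this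
   statement); for every order `m` every such `A` has a large subset which is Freiman isomorphic of
   order `m` to a set of lattice points of a convex body of dimension `C (1 + log K)` with at most
   `|A|` lattice points.

Proof of 2: the kernel of the progression has few elements in a multiple `r B` of the body, because
the image is large; a multiple `p w` with `p` larger than their number is never among them, so some
linear form modulo a prime `p` of that size does not vanish at them; on the most popular class of
this form the homomorphism is injective to any order. For `F` one takes `A × {0, ..., N - 1}` and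
intersects a piece of it with the cosets of a sublattice. Part 1 uses the weak polynomial
Freiman-Ruzsa theorem of Gowers, Green, Manners and Tao (starting files).
-/

set_option autoImplicit false
open scoped Pointwise

namespace Pool.Agent.Results.MP_626a77_co.ConvexPieces

open Pool.Agent.R934.PF

/-- **Dense pieces in convex sets and the polynomial Freiman-Ruzsa conjecture.** In 3. the four
statements are Q1 (as in the frozen statement), Q1 for `|A| ≥ F(K)`, the statement on pieces of any
dimension, and the statement on pieces of all orders `m` in convex bodies of small dimension. -/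
theorem result :
    (∀ (K M : ℝ) (A : Finset ℤ), A.Nonempty → ((A + A).card : ℝ) ≤ K * (A.card : ℝ) → Piece M A →
      ∃ (d : ℕ) (B : Set (Fin d → ℝ)) (v : Fin d → ℤ) (T : Finset ℤ),
        (d : ℝ) ≤ 480 * Real.log (K * M) + 1 ∧
        Convex ℝ B ∧ IsCompact B ∧ (interior B).Nonempty ∧ (∀ x ∈ B, -x ∈ B) ∧
        ({x : Fin d → ℤ | (fun i => (x i : ℝ)) ∈ B}.ncard ≤ A.card) ∧
        ((T.card : ℝ) ≤ (2 * (K * M)) ^ 4200) ∧
        ∀ a ∈ A, ∃ t ∈ T, ∃ x : Fin d → ℤ,
          (fun i => (x i : ℝ)) ∈ B ∧ a = t + ∑ i, v i * x i) ∧
    (∀ (A : Finset ℤ), A.Nonempty → ∀ (d : ℕ) (B : Set (Fin d → ℝ)) (v : Fin d → ℤ) (T : Finset ℤ),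
      Convex ℝ B → IsCompact B → (interior B).Nonempty → (∀ x ∈ B, -x ∈ B) →
      {x : Fin d → ℤ | (fun i => (x i : ℝ)) ∈ B}.ncard ≤ A.card →
      (∀ a ∈ A, ∃ t ∈ T, ∃ x : Fin d → ℤ,
        (fun i => (x i : ℝ)) ∈ B ∧ a = t + ∑ i, v i * x i) →
      Piece (2 * 5 ^ (5 * d) * (T.card : ℝ) ^ 2) A) ∧
    List.TFAE [
      ∃ C : ℝ, 0 < C ∧ ∀ (K : ℝ) (A : Finset ℤ), A.Nonempty →
        ((A + A).card : ℝ) ≤ K * (A.card : ℝ) → Covered C K A,
      ∃ (F : ℝ → ℝ) (C : ℝ), 0 < C ∧ ∀ (K : ℝ) (A : Finset ℤ), A.Nonempty → F K ≤ A.card →
        ((A + A).card : ℝ) ≤ K * (A.card : ℝ) → Covered C K A,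
      ∃ C : ℝ, 0 < C ∧ ∀ (K : ℝ) (A : Finset ℤ), A.Nonempty →
        ((A + A).card : ℝ) ≤ K * (A.card : ℝ) → Piece (C * K ^ C) A,
      ∀ m : ℕ, ∃ C : ℝ, 0 < C ∧ ∀ (K : ℝ) (A : Finset ℤ), A.Nonempty →
        ((A + A).card : ℝ) ≤ K * (A.card : ℝ) → StrongPiece m C K A] :=
  ⟨fun _ _ _ hA hK h => covered_of_piece hA hK h,
    fun _ hA _ _ _ _ h1 h2 h3 h4 hB hcov => piece_of_cover h1 h2 h3 h4 hA hB hcov, main_tfae⟩

end Pool.Agent.Results.MP_626a77_co.ConvexPieces
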