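import Pool.Agent.R124.NF.Last

/-!
# Normal forms for the convex bodies in the polynomial Freiman-Ruzsa conjecture over `ℤ`

The lattice points of a symmetric convex body in `ℝ^d` are covered by `2 ^ (60 d)` translates of
the lattice points of a parallelepiped, and of an ellipsoid, that has no more lattice points.
Hence the convex bodies in the conjecture may be taken to be parallelepipeds, and ellipsoids.
-/

set_option autoImplicit false

open Matrix
open scoped Pointwise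

namespace Pool.Agent.Results.MP_626a77_co.NormalForms

open R124.NF

theorem result :
    -- (0) parallelepipeds and ellipsoids are symmetric convex bodies
    (∀ (d : ℕ) (E : Set (Fin d → ℝ)), Parallelepiped d E ∨ Ellipsoid d E → Body d E) ∧
    -- (1) the integer points of a symmetric convex body
    (∀ (d : ℕ) (B : Set (Fin d → ℝ)), Body d B → ∀ n : ℕ, (LP B).ncard ≤ n →
      (∃ E, Parallelepiped d E ∧ (LP E).ncard ≤ n ∧ ∃ F : Finset (Fin d → ℤ),
        F.card ≤ 2 ^ (60 * d) ∧ LP B ⊆ ⋃ g ∈ F, (fun x => g + x) '' LP E) ∧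
      (∃ E, Ellipsoid d E ∧ (LP E).ncard ≤ n ∧ ∃ F : Finset (Fin d → ℤ),
        F.card ≤ 2 ^ (60 * d) ∧ LP B ⊆ ⋃ g ∈ F, (fun x => g + x) '' LP E)) ∧
    -- (2) each set: convex bodies against parallelepipeds and ellipsoids
    (∀ C : ℝ, 0 < C → ∀ K : ℝ, 1 ≤ K → ∀ A : Finset ℤ, CoverBy Body C K A →
      CoverBy Parallelepiped (C * Real.exp (60 * C) + 61 * C) K A ∧
      CoverBy Ellipsoid (C * Real.exp (60 * C) + 61 * C) K A) ∧
    -- (3) the conjecture is equivalent to the conjecture for parallelepipeds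
    ((∃ C : ℝ, 0 < C ∧ ∀ (K : ℝ) (A : Finset ℤ), A.Nonempty →
      (((A + A).card : ℝ) ≤ K * (A.card : ℝ)) →
      ∃ (d : ℕ) (B : Set (Fin d → ℝ)) (v : Fin d → ℤ) (T : Finset ℤ),
        (d : ℝ) ≤ C * (1 + Real.log K) ∧
        Convex ℝ B ∧ IsCompact B ∧ (interior B).Nonempty ∧ (∀ x ∈ B, -x ∈ B) ∧
        ({x : Fin d → ℤ | (fun i => (x i : ℝ)) ∈ B}.ncard ≤ A.card) ∧
        ((T.card : ℝ) ≤ C * K ^ C) ∧
        ∀ a ∈ A, ∃ t ∈ T, ∃ x : Fin d → ℤ,
          (fun i => (x i : ℝ)) ∈ B ∧ a = t + ∑ i, v i * x i) ↔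
     (∃ C : ℝ, 0 < C ∧ ∀ (K : ℝ) (A : Finset ℤ), A.Nonempty →
      (((A + A).card : ℝ) ≤ K * (A.card : ℝ)) → CoverBy Parallelepiped C K A)) ∧
    -- (4) the conjecture is equivalent to the conjecture for ellipsoids
    ((∃ C : ℝ, 0 < C ∧ ∀ (K : ℝ) (A : Finset ℤ), A.Nonempty →
      (((A + A).card : ℝ) ≤ K * (A.card : ℝ)) →
      ∃ (d : ℕ) (B : Set (Fin d → ℝ)) (v : Fin d → ℤ) (T : Finset ℤ),
        (d : ℝ) ≤ C * (1 + Real.log K) ∧
        Convex ℝ B ∧ IsCompact B ∧ (interior B).Nonempty ∧ (∀ x ∈ B, -x ∈ B) ∧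
        ({x : Fin d → ℤ | (fun i => (x i : ℝ)) ∈ B}.ncard ≤ A.card) ∧
        ((T.card : ℝ) ≤ C * K ^ C) ∧
        ∀ a ∈ A, ∃ t ∈ T, ∃ x : Fin d → ℤ,
          (fun i => (x i : ℝ)) ∈ B ∧ a = t + ∑ i, v i * x i) ↔
     (∃ C : ℝ, 0 < C ∧ ∀ (K : ℝ) (A : Finset ℤ), A.Nonempty →
      (((A + A).card : ℝ) ≤ K * (A.card : ℝ)) → CoverBy Ellipsoid C K A)) := by
  refine ⟨?_, fun d B hB n hn => lattice_all B hB n hn, transferCover, ?_, ?_⟩
  · rintro d E (h | h)
    · exact body_paral h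
    · exact body_ell h
  · simp only [frozen_iff]
    exact q_iff _ (fun _ _ h => body_paral h) (fun C hC K hK A h => (transferCover C hC K hK A h).1)
  · simp only [frozen_iff]
    exact q_iff _ (fun _ _ h => body_ell h) (fun C hC K hK A h => (transferCover C hC K hK A h).2)

end Pool.Agent.Results.MP_626a77_co.NormalForms
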